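import Mathlib

set_option autoImplicit false

/-!
Energy increment for vector valued sequences `G` with `∑_{r < q} G (q n + r) = q P (G n)`, `P` a
power bounded operator of `ℝ ^ ι`.
-/

namespace Pool.Agent.Y834.AU

open Finset Filter Topology

variable {ι : Type} [Fintype ι]

/-- the square of the Euclidean norm -/
def sq (x : ι → ℝ) : ℝ := ∑ a, x a ^ 2

theorem sq_nonneg' (x : ι → ℝ) : 0 ≤ sq x := sum_nonneg fun _ _ => sq_nonneg _

theorem norm_le_sq (x : ι → ℝ) : ‖x‖ ^ 2 ≤ sq x := by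
  rcases isEmpty_or_nonempty ι with h | h
  · have : x = 0 := Subsingleton.elim _ _
    subst this
    simp [sq]
  · obtain ⟨a, ha⟩ : ∃ a, ‖x‖ = ‖x a‖ := by
      obtain ⟨a, _, ha⟩ := exists_mem_eq_sup' (s := (univ : Finset ι)) univ_nonempty (fun a => ‖x a‖₊)
      refine ⟨a, ?_⟩
      have h1 : ‖x‖₊ = ‖x a‖₊ := by
        rw [← ha, Pi.nnnorm_def, sup'_eq_sup]
      exact congrArg NNReal.toReal h1
    rw [ha, Real.norm_eq_abs, sq_abs]
    exact single_le_sum (f := fun a => x a ^ 2) (fun _ _ => sq_nonneg _) (mem_univ a)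

theorem sq_le_norm (x : ι → ℝ) : sq x ≤ Fintype.card ι * ‖x‖ ^ 2 := by
  unfold sq
  calc ∑ a, x a ^ 2 ≤ ∑ _a : ι, ‖x‖ ^ 2 := by
        apply sum_le_sum
        intro a _
        rw [← sq_abs]
        exact pow_le_pow_left₀ (abs_nonneg _) (norm_le_pi_norm x a) 2
    _ = _ := by rw [sum_const, card_univ, nsmul_eq_mul]

/-- the variance identity -/
theorem sq_var {Q : ℕ} (y : ℕ → ι → ℝ) (z : ι → ℝ) (h : ∑ r ∈ range Q, y r = (Q : ℝ) • z) :
    ∑ r ∈ range Q, sq (y r) = Q * sq z + ∑ r ∈ range Q, sq (y r - z) := by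
  have h1 : ∀ a, ∑ r ∈ range Q, y r a = Q * z a := by
    intro a
    have := congrFun h a
    simpa using this
  have h2 : ∀ a, ∑ r ∈ range Q, y r a ^ 2 = Q * z a ^ 2 + ∑ r ∈ range Q, (y r a - z a) ^ 2 := by
    intro a
    have h3 : ∑ r ∈ range Q, (y r a - z a) ^ 2 = ∑ r ∈ range Q, (y r a ^ 2 - 2 * z a * y r a + z a ^ 2) :=
      sum_congr rfl fun r _ => by ring
    rw [h3, sum_add_distrib, sum_sub_distrib, ← mul_sum, h1 a, sum_const, card_range, nsmul_eq_mul]
    ring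
  unfold sq
  rw [sum_comm, sum_congr rfl (fun a _ => h2 a), sum_add_distrib, mul_sum, sum_comm (s := univ)]
  rfl

variable (P : (ι → ℝ) →ₗ[ℝ] (ι → ℝ))

/-- the mean of the squares along the orbit of `P` -/
noncomputable def Nk (k : ℕ) (x : ι → ℝ) : ℝ := (∑ i ∈ range k, sq ((P ^ i) x)) / k

theorem Nk_nonneg (k : ℕ) (x : ι → ℝ) : 0 ≤ Nk P k x :=
  div_nonneg (sum_nonneg fun _ _ => sq_nonneg' _) (Nat.cast_nonneg _)

theorem Nk_var {Q : ℕ} (k : ℕ) (y : ℕ → ι → ℝ) (z : ι → ℝ) (h : ∑ r ∈ range Q, y r = (Q : ℝ) • z) :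
    ∑ r ∈ range Q, Nk P k (y r) = Q * Nk P k z + ∑ r ∈ range Q, Nk P k (y r - z) := by
  have h1 : ∀ i, ∑ r ∈ range Q, sq ((P ^ i) (y r)) =
      Q * sq ((P ^ i) z) + ∑ r ∈ range Q, sq ((P ^ i) (y r - z)) := by
    intro i
    have h2 : ∑ r ∈ range Q, (P ^ i) (y r) = (Q : ℝ) • (P ^ i) z := by
      rw [← map_sum, h, map_smul]
    rw [sq_var _ _ h2]
    congr 1
    exact sum_congr rfl fun r _ => by rw [map_sub]
  unfold Nk
  rw [← sum_div, ← sum_div, sum_comm, sum_congr rfl (fun i _ => h1 i), sum_add_distrib, ← mul_sum,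
    sum_comm (s := range Q)]
  ring

theorem Nk_shift (k : ℕ) (x : ι → ℝ) :
    Nk P k (P x) - Nk P k x = (sq ((P ^ k) x) - sq x) / k := by
  unfold Nk
  rw [← sub_div]
  congr 1
  have h1 : ∀ i, sq ((P ^ i) (P x)) = sq ((P ^ (i + 1)) x) := by
    intro i
    rw [pow_succ]
    rfl
  rw [sum_congr rfl (fun i _ => h1 i), ← sum_sub_distrib, sum_range_sub (fun i => sq ((P ^ i) x))]
  simp

theorem Nk_le {C : ℝ} (hC : ∀ i x, ‖(P ^ i) x‖ ≤ C * ‖x‖) (k : ℕ) (x : ι → ℝ) :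
    Nk P k x ≤ Fintype.card ι * C ^ 2 * ‖x‖ ^ 2 := by
  unfold Nk
  rcases Nat.eq_zero_or_pos k with rfl | hk
  · simp
    positivity
  · have hk0 : (0 : ℝ) < k := by exact_mod_cast hk
    rw [div_le_iff₀ hk0]
    calc ∑ i ∈ range k, sq ((P ^ i) x) ≤ ∑ _i ∈ range k, Fintype.card ι * C ^ 2 * ‖x‖ ^ 2 := by
          apply sum_le_sum
          intro i _
          refine (sq_le_norm _).trans ?_
          rw [mul_assoc, ← mul_pow]
          exact mul_le_mul_of_nonneg_left (pow_le_pow_left₀ (norm_nonneg _) (hC i x) 2) (Nat.cast_nonneg _)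
      _ = _ := by rw [sum_const, card_range, nsmul_eq_mul]; ring

theorem norm_le_Nk {C : ℝ} (hC : ∀ i x, ‖(P ^ i) x‖ ≤ C * ‖x‖) {k : ℕ} (hk : 0 < k) (x : ι → ℝ) :
    ‖(P ^ k) x‖ ^ 2 ≤ C ^ 2 * Nk P k x := by
  have hk0 : (0 : ℝ) < k := by exact_mod_cast hk
  unfold Nk
  rw [mul_div_assoc', le_div_iff₀ hk0, mul_sum]
  calc ‖(P ^ k) x‖ ^ 2 * k = ∑ _i ∈ range k, ‖(P ^ k) x‖ ^ 2 := by
        rw [sum_const, card_range, nsmul_eq_mul]; ring
    _ ≤ ∑ i ∈ range k, C ^ 2 * sq ((P ^ i) x) := by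
        apply sum_le_sum
        intro i hi
        rw [mem_range] at hi
        have h1 : (P ^ k) x = (P ^ (k - i)) ((P ^ i) x) := by
          rw [← Module.End.mul_apply, ← pow_add, Nat.sub_add_cancel hi.le]
        have h2 := hC (k - i) ((P ^ i) x)
        rw [h1]
        calc ‖(P ^ (k - i)) ((P ^ i) x)‖ ^ 2 ≤ (C * ‖(P ^ i) x‖) ^ 2 :=
              pow_le_pow_left₀ (norm_nonneg _) h2 2
          _ = C ^ 2 * ‖(P ^ i) x‖ ^ 2 := by ring
          _ ≤ _ := mul_le_mul_of_nonneg_left (norm_le_sq _) (sq_nonneg _)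

/-- the Gram matrix -/
noncomputable def gram (k : ℕ) [DecidableEq ι] (a b : ι) : ℝ :=
  (∑ i ∈ range k, ∑ c, (P ^ i) (Pi.single a 1) c * (P ^ i) (Pi.single b 1) c) / k

theorem Nk_gram [DecidableEq ι] (k : ℕ) (x : ι → ℝ) :
    Nk P k x = ∑ a, ∑ b, x a * x b * gram P k a b := by
  have h1 : ∀ i, sq ((P ^ i) x) = ∑ a, ∑ b, x a * x b *
      ∑ c, (P ^ i) (Pi.single a 1) c * (P ^ i) (Pi.single b 1) c := by
    intro i
    have h2 : ∀ c, (P ^ i) x c = ∑ a, x a * (P ^ i) (Pi.single a 1) c := by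
      intro c
      have h3 := LinearMap.pi_apply_eq_sum_univ (P ^ i) x
      rw [h3, Finset.sum_apply]
      apply sum_congr rfl
      intro a _
      have h4 : (fun j => if a = j then (1 : ℝ) else 0) = Pi.single a 1 := by
        ext j
        simp only [Pi.single_apply, eq_comm]
      rw [Pi.smul_apply, smul_eq_mul, h4]
    unfold sq
    simp only [h2]
    calc ∑ c, (∑ a, x a * (P ^ i) (Pi.single a 1) c) ^ 2 =
        ∑ c, ∑ a, ∑ b, x a * x b * ((P ^ i) (Pi.single a 1) c * (P ^ i) (Pi.single b 1) c) := by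
          apply sum_congr rfl
          intro c _
          rw [pow_two, sum_mul_sum]
          exact sum_congr rfl fun a _ => sum_congr rfl fun b _ => by ring
      _ = _ := by
          rw [sum_comm]
          apply sum_congr rfl
          intro a _
          rw [sum_comm]
          apply sum_congr rfl
          intro b _
          rw [mul_sum]
  unfold Nk gram
  rw [sum_congr rfl (fun i _ => h1 i)]
  simp only [mul_div_assoc', ← sum_div]
  congr 1
  rw [sum_comm]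
  apply sum_congr rfl
  intro a _
  rw [sum_comm]
  apply sum_congr rfl
  intro b _
  rw [mul_sum]

theorem gram_le [DecidableEq ι] {C : ℝ} (hC : ∀ i x, ‖(P ^ i) x‖ ≤ C * ‖x‖) (k : ℕ) (a b : ι) :
    |gram P k a b| ≤ Fintype.card ι * C ^ 2 := by
  have hC0 : 0 ≤ Fintype.card ι * C ^ 2 := by positivity
  unfold gram
  rcases Nat.eq_zero_or_pos k with rfl | hk
  · simpa using hC0
  · have hk0 : (0 : ℝ) < k := by exact_mod_cast hk
    rw [abs_div, Nat.abs_cast, div_le_iff₀ hk0]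
    have h1 : ∀ i (a c : ι), |(P ^ i) (Pi.single a 1) c| ≤ C := by
      intro i a c
      refine (norm_le_pi_norm ((P ^ i) (Pi.single a 1)) c).trans ((hC i _).trans ?_)
      rw [Pi.norm_single]
      simp
    calc |∑ i ∈ range k, ∑ c, (P ^ i) (Pi.single a 1) c * (P ^ i) (Pi.single b 1) c|
        ≤ ∑ i ∈ range k, ∑ c, |(P ^ i) (Pi.single a 1) c * (P ^ i) (Pi.single b 1) c| :=
          (abs_sum_le_sum_abs _ _).trans (sum_le_sum fun i _ => abs_sum_le_sum_abs _ _)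
      _ ≤ ∑ _i ∈ range k, ∑ _c : ι, C ^ 2 := by
          apply sum_le_sum
          intro i _
          apply sum_le_sum
          intro c _
          rw [abs_mul, pow_two]
          exact mul_le_mul (h1 i a c) (h1 i b c) (abs_nonneg _) ((abs_nonneg _).trans (h1 i a c))
      _ = _ := by
          rw [sum_const, sum_const, card_range, card_univ]
          simp only [nsmul_eq_mul]
          ring

/-- a limit of the quadratic forms along a subsequence -/
theorem exists_limit {C : ℝ} (hC : ∀ i x, ‖(P ^ i) x‖ ≤ C * ‖x‖) :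
    ∃ (φ : ℕ → ℕ) (B : (ι → ℝ) → ℝ), StrictMono φ ∧ ∀ R ε : ℝ, 0 < ε → ∃ j₀ : ℕ, ∀ j ≥ j₀, ∀ x : ι → ℝ,
      ‖x‖ ≤ R → |Nk P (φ j) x - B x| ≤ ε := by
  classical
  have hb : Bornology.IsBounded {m : ι → ι → ℝ | ∀ a b, |m a b| ≤ Fintype.card ι * C ^ 2} := by
    rw [isBounded_iff_forall_norm_le]
    refine ⟨Fintype.card ι * C ^ 2, fun m hm => ?_⟩
    have h0 : 0 ≤ Fintype.card ι * C ^ 2 := by positivity
    rw [pi_norm_le_iff_of_nonneg h0]
    intro a
    rw [pi_norm_le_iff_of_nonneg h0]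
    intro b
    exact hm a b
  obtain ⟨m, -, φ, hφ, hlim⟩ := tendsto_subseq_of_bounded hb (x := fun k => gram P k)
    (fun k => fun a b => gram_le P hC k a b)
  refine ⟨φ, fun x => ∑ a, ∑ b, x a * x b * m a b, hφ, fun R ε hε => ?_⟩
  rw [Metric.tendsto_atTop] at hlim
  obtain ⟨j₀, hj₀⟩ := hlim (ε / (Fintype.card ι ^ 2 * R ^ 2 + 1)) (by positivity)
  refine ⟨j₀, fun j hj x hx => ?_⟩
  have h1 := hj₀ j hj
  rw [dist_eq_norm] at h1
  have h2 : ∀ a b, |gram P (φ j) a b - m a b| ≤ ε / (Fintype.card ι ^ 2 * R ^ 2 + 1) := by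
    intro a b
    have h3 := norm_le_pi_norm ((((fun k => gram P k) ∘ φ) j) - m) a
    have h4 := norm_le_pi_norm (((((fun k => gram P k) ∘ φ) j) - m) a) b
    exact (h4.trans h3).trans h1.le
  rw [Nk_gram, ← sum_sub_distrib]
  simp only [← sum_sub_distrib, ← mul_sub]
  have hx0 : ∀ a, |x a| ≤ R := fun a => (norm_le_pi_norm x a).trans hx
  calc |∑ a, ∑ b, x a * x b * (gram P (φ j) a b - m a b)|
      ≤ ∑ a, ∑ b, |x a * x b * (gram P (φ j) a b - m a b)| :=
        (abs_sum_le_sum_abs _ _).trans (sum_le_sum fun a _ => abs_sum_le_sum_abs _ _)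
    _ ≤ ∑ _a : ι, ∑ _b : ι, R ^ 2 * (ε / (Fintype.card ι ^ 2 * R ^ 2 + 1)) := by
        apply sum_le_sum
        intro a _
        apply sum_le_sum
        intro b _
        rw [abs_mul, abs_mul]
        have hR : 0 ≤ R := (abs_nonneg _).trans (hx0 a)
        apply mul_le_mul _ (h2 a b) (abs_nonneg _) (by positivity)
        rw [pow_two]
        exact mul_le_mul (hx0 a) (hx0 b) (abs_nonneg _) hR
    _ = Fintype.card ι ^ 2 * R ^ 2 * ε / (Fintype.card ι ^ 2 * R ^ 2 + 1) := by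
        rw [sum_const, sum_const, card_univ]
        simp only [nsmul_eq_mul]
        ring
    _ ≤ ε := by
        rw [div_le_iff₀ (by positivity)]
        nlinarith [hε.le]

end Pool.Agent.Y834.AU
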