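import Mathlib
import Pool.Agent.Y834.AU.Energy

set_option autoImplicit false

namespace Pool.Agent.Y834.AU

open Finset Filter Topology

variable {ι : Type} [Fintype ι] (P : (ι → ℝ) →ₗ[ℝ] (ι → ℝ))

/-- the limit form: invariance, variance identity and bounds -/
theorem limit_props {C : ℝ} (hC : ∀ i x, ‖(P ^ i) x‖ ≤ C * ‖x‖) {φ : ℕ → ℕ} {B : (ι → ℝ) → ℝ}
    (hφ : StrictMono φ)
    (hB : ∀ R ε : ℝ, 0 < ε → ∃ j₀ : ℕ, ∀ j ≥ j₀, ∀ x : ι → ℝ, ‖x‖ ≤ R → |Nk P (φ j) x - B x| ≤ ε) :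
    (∀ x, B (P x) = B x) ∧ (∀ x, 0 ≤ B x) ∧ (∀ x, B x ≤ Fintype.card ι * C ^ 2 * ‖x‖ ^ 2) ∧
    (∀ (Q : ℕ) (y : ℕ → ι → ℝ) (z : ι → ℝ), ∑ r ∈ range Q, y r = (Q : ℝ) • z →
      ∑ r ∈ range Q, B (y r) = Q * B z + ∑ r ∈ range Q, B (y r - z)) := by
  have hlim : ∀ x, Tendsto (fun j => Nk P (φ j) x) atTop (𝓝 (B x)) := by
    intro x
    rw [Metric.tendsto_atTop]
    intro ε hε
    obtain ⟨j₀, h⟩ := hB ‖x‖ (ε / 2) (by positivity)
    refine ⟨j₀, fun j hj => ?_⟩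
    rw [Real.dist_eq]
    exact (h j hj x le_rfl).trans_lt (by linarith)
  refine ⟨fun x => ?_, fun x => ge_of_tendsto' (hlim x) fun j => Nk_nonneg P _ x,
    fun x => le_of_tendsto' (hlim x) fun j => Nk_le P hC _ x, fun Q y z h => ?_⟩
  · have h1 : Tendsto (fun j => Nk P (φ j) (P x) - Nk P (φ j) x) atTop (𝓝 (B (P x) - B x)) :=
      (hlim (P x)).sub (hlim x)
    have h2 : Tendsto (fun j => Nk P (φ j) (P x) - Nk P (φ j) x) atTop (𝓝 0) := by
      simp only [Nk_shift]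
      have h3 : Tendsto (fun j => (φ j : ℝ)) atTop atTop :=
        tendsto_natCast_atTop_atTop.comp hφ.tendsto_atTop
      have h4 : Tendsto (fun j => (Fintype.card ι * (C * ‖x‖) ^ 2 + sq x) / (φ j : ℝ)) atTop (𝓝 0) :=
        tendsto_const_nhds.div_atTop h3
      refine squeeze_zero_norm (fun j => ?_) h4
      rw [Real.norm_eq_abs, abs_div, Nat.abs_cast]
      apply div_le_div_of_nonneg_right _ (Nat.cast_nonneg _)
      have h5 : sq ((P ^ φ j) x) ≤ Fintype.card ι * (C * ‖x‖) ^ 2 :=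
        (sq_le_norm _).trans (mul_le_mul_of_nonneg_left (pow_le_pow_left₀ (norm_nonneg _) (hC _ x) 2)
          (Nat.cast_nonneg _))
      have h6 := sq_nonneg' ((P ^ φ j) x)
      have h7 := sq_nonneg' x
      rw [abs_le]
      constructor <;> nlinarith
    have := tendsto_nhds_unique h1 h2
    linarith
  · have h1 : Tendsto (fun j => ∑ r ∈ range Q, Nk P (φ j) (y r)) atTop (𝓝 (∑ r ∈ range Q, B (y r))) :=
      tendsto_finsetSum _ fun r _ => hlim _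
    have h2 : Tendsto (fun j => Q * Nk P (φ j) z + ∑ r ∈ range Q, Nk P (φ j) (y r - z)) atTop
        (𝓝 (Q * B z + ∑ r ∈ range Q, B (y r - z))) :=
      ((hlim z).const_mul _).add (tendsto_finsetSum _ fun r _ => hlim _)
    refine tendsto_nhds_unique h1 (h2.congr fun j => ?_)
    exact (Nk_var P (φ j) y z h).symm

/-- sums over `range (q ^ (l + 1))` -/
theorem sum_range_mul {β : Type*} [AddCommMonoid β] (a b : ℕ) (F : ℕ → β) :
    ∑ n ∈ range (a * b), F n = ∑ s ∈ range a, ∑ t ∈ range b, F (b * s + t) := by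
  induction a with
  | zero => simp
  | succ a ih =>
    rw [sum_range_succ, ← ih, show (a + 1) * b = a * b + b by ring, sum_range_add]
    congr 1
    exact sum_congr rfl fun t _ => by rw [mul_comm a b]

theorem sum_Ico_mul {β : Type*} [AddCommMonoid β] (a c b : ℕ) (hac : a ≤ c) (F : ℕ → β) :
    ∑ n ∈ Ico (a * b) (c * b), F n = ∑ s ∈ Ico a c, ∑ t ∈ range b, F (b * s + t) := by
  obtain ⟨d, rfl⟩ := Nat.exists_eq_add_of_le hac
  rw [sum_Ico_eq_sum_range, sum_Ico_eq_sum_range, show (a + d) * b - a * b = d * b by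
    rw [Nat.add_mul, Nat.add_sub_cancel_left], sum_range_mul, Nat.add_sub_cancel_left]
  apply sum_congr rfl
  intro s _
  apply sum_congr rfl
  intro t _
  congr 1
  ring

variable {q : ℕ} {G : ℕ → ι → ℝ}

theorem iter (hG : ∀ n, ∑ r ∈ range q, G (q * n + r) = (q : ℝ) • P (G n)) (l : ℕ) : ∀ n,
    ∑ r ∈ range (q ^ l), G (q ^ l * n + r) = ((q ^ l : ℕ) : ℝ) • (P ^ l) (G n) := by
  induction l with
  | zero => intro n; simp
  | succ l ih =>
    intro n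
    rw [show q ^ (l + 1) = q ^ l * q by rw [pow_succ], sum_range_mul]
    have h1 : ∀ s, ∑ t ∈ range q, G (q ^ l * q * n + (q * s + t)) = (q : ℝ) • P (G (q ^ l * n + s)) := by
      intro s
      rw [← hG]
      apply sum_congr rfl
      intro t _
      congr 1
      ring
    rw [sum_congr rfl (fun s _ => h1 s), ← smul_sum, ← map_sum, ih n, map_smul, smul_smul, pow_succ']
    push_cast
    rw [mul_comm (q : ℝ)]
    rfl

/-- one increment -/
theorem incr (hG : ∀ n, ∑ r ∈ range q, G (q * n + r) = (q : ℝ) • P (G n)) {B : (ι → ℝ) → ℝ}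
    (hBP : ∀ x, B (P x) = B x)
    (hvar : ∀ (Q : ℕ) (y : ℕ → ι → ℝ) (z : ι → ℝ), ∑ r ∈ range Q, y r = (Q : ℝ) • z →
      ∑ r ∈ range Q, B (y r) = Q * B z + ∑ r ∈ range Q, B (y r - z)) (hq : 0 < q) (l a c : ℕ) (hac : a ≤ c) :
    ∑ n ∈ Ico (a * q ^ l) (c * q ^ l), B (G n) = (q : ℝ) ^ l * ∑ n ∈ Ico a c, B (G n) +
      ∑ n ∈ Ico (a * q ^ l) (c * q ^ l), B (G n - (P ^ l) (G (n / q ^ l))) := by
  have hBl : ∀ l x, B ((P ^ l) x) = B x := by
    intro l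
    induction l with
    | zero => intro x; rfl
    | succ l ih =>
      intro x
      rw [pow_succ', Module.End.mul_apply, hBP, ih]
  rw [sum_Ico_mul _ _ _ hac, sum_Ico_mul _ _ _ hac, mul_sum, ← sum_add_distrib]
  apply sum_congr rfl
  intro s _
  have h1 := hvar (q ^ l) (fun r => G (q ^ l * s + r)) ((P ^ l) (G s)) (iter P hG l s)
  rw [h1, hBl]
  push_cast
  congr 1
  apply sum_congr rfl
  intro t ht
  rw [mem_range] at ht
  congr 3
  rw [Nat.mul_add_div (by positivity), Nat.div_eq_of_lt ht, add_zero]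

/-- the energies of the blocks `[q ^ j, q ^ (j + 1))` converge, so the increments are small -/
theorem block_small (hG : ∀ n, ∑ r ∈ range q, G (q * n + r) = (q : ℝ) • P (G n)) {B : (ι → ℝ) → ℝ}
    (hBP : ∀ x, B (P x) = B x) (hB0 : ∀ x, 0 ≤ B x)
    (hvar : ∀ (Q : ℕ) (y : ℕ → ι → ℝ) (z : ι → ℝ), ∑ r ∈ range Q, y r = (Q : ℝ) • z →
      ∑ r ∈ range Q, B (y r) = Q * B z + ∑ r ∈ range Q, B (y r - z)) (hq : 0 < q)
    {D : ℝ} (hD : ∀ n, B (G n) ≤ D) {ε : ℝ} (hε : 0 < ε) :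
    ∃ j₀ : ℕ, ∀ j ≥ j₀, ∀ l : ℕ,
      ∑ n ∈ Ico (q ^ (j + l)) (q ^ (j + l + 1)), B (G n - (P ^ l) (G (n / q ^ l))) ≤ ε * q ^ (j + l) := by
  have hq0 : (0 : ℝ) < q := by exact_mod_cast hq
  set e : ℕ → ℝ := fun j => (∑ n ∈ Ico (q ^ j) (q ^ (j + 1)), B (G n)) / q ^ j with he
  have key : ∀ j l, e (j + l) = e j +
      (∑ n ∈ Ico (q ^ (j + l)) (q ^ (j + l + 1)), B (G n - (P ^ l) (G (n / q ^ l)))) / q ^ (j + l) := by
    intro j l
    have h1 := incr P hG hBP hvar hq l (q ^ j) (q ^ (j + 1)) (Nat.pow_le_pow_right hq (by omega))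
    rw [← pow_add, ← pow_add, show j + 1 + l = j + l + 1 by ring] at h1
    simp only [he]
    rw [h1, add_div]
    congr 1
    rw [show (q : ℝ) ^ (j + l) = q ^ l * q ^ j by ring, mul_div_mul_left _ _ (by positivity)]
  have hmono : Monotone e := by
    apply monotone_nat_of_le_succ
    intro j
    rw [key j 1]
    have : 0 ≤ (∑ n ∈ Ico (q ^ (j + 1)) (q ^ (j + 1 + 1)), B (G n - (P ^ 1) (G (n / q ^ 1)))) / (q : ℝ) ^ (j + 1) :=
      div_nonneg (sum_nonneg fun _ _ => hB0 _) (by positivity)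
    linarith
  have hbdd : ∀ j, e j ≤ q * D := by
    intro j
    simp only [he]
    rw [div_le_iff₀ (by positivity)]
    have hD0 : 0 ≤ D := (hB0 _).trans (hD 0)
    calc ∑ n ∈ Ico (q ^ j) (q ^ (j + 1)), B (G n) ≤ ∑ _n ∈ Ico (q ^ j) (q ^ (j + 1)), D :=
          sum_le_sum fun n _ => hD n
      _ = ((q ^ (j + 1) - q ^ j : ℕ) : ℝ) * D := by rw [sum_const, Nat.card_Ico, nsmul_eq_mul]
      _ ≤ ((q ^ (j + 1) : ℕ) : ℝ) * D := by
          apply mul_le_mul_of_nonneg_right _ hD0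
          exact_mod_cast Nat.sub_le _ _
      _ = _ := by push_cast; ring
  obtain ⟨L, hL⟩ : ∃ L, Tendsto e atTop (𝓝 L) := by
    rcases tendsto_atTop_of_monotone hmono with h | h
    · exfalso
      obtain ⟨j, hj⟩ := (h.eventually_gt_atTop (q * D)).exists
      exact absurd (hbdd j) (not_le.2 hj)
    · exact h
  have hLe : ∀ j, e j ≤ L := fun j => hmono.ge_of_tendsto hL j
  obtain ⟨j₀, hj₀⟩ := ((tendsto_order.1 hL).1 (L - ε) (by linarith)).exists_forall_of_atTop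
  refine ⟨j₀, fun j hj l => ?_⟩
  have h1 := hj₀ j hj
  have h2 := hLe (j + l)
  rw [key j l] at h2
  have h3 : (∑ n ∈ Ico (q ^ (j + l)) (q ^ (j + l + 1)), B (G n - (P ^ l) (G (n / q ^ l)))) / (q : ℝ) ^ (j + l) ≤ ε := by
    linarith
  rwa [div_le_iff₀ (by positivity)] at h3

/-- the same for initial segments -/
theorem initial_small (hq : 2 ≤ q) {F : ℕ → ℕ → ℝ} (hF0 : ∀ l n, 0 ≤ F l n) {D : ℝ} (hD : ∀ l n, F l n ≤ D)
    (h : ∀ ε : ℝ, 0 < ε → ∃ j₀ : ℕ, ∀ j ≥ j₀, ∀ l : ℕ, ∑ n ∈ Ico (q ^ (j + l)) (q ^ (j + l + 1)), F l n ≤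
      ε * q ^ (j + l)) {ε : ℝ} (hε : 0 < ε) :
    ∃ J : ℕ, ∀ l M : ℕ, q ^ (J + l) ≤ M → M < q ^ (J + l + 1) → ∑ n ∈ range M, F l n ≤ ε * M := by
  have hq0 : (0 : ℝ) < q := by exact_mod_cast (by omega : 0 < q)
  have hq2 : (2 : ℝ) ≤ q := by exact_mod_cast hq
  obtain ⟨j₀, hj₀⟩ := h (ε / 4) (by positivity)
  obtain ⟨J', hJ'⟩ : ∃ J' : ℕ, 2 * D / ε < (q : ℝ) ^ J' := pow_unbounded_of_one_lt _ (by linarith)
  refine ⟨j₀ + J', fun l M hM1 hM2 => ?_⟩
  have hM1' : (q : ℝ) ^ (j₀ + J' + l) ≤ M := by exact_mod_cast hM1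
  have hD0 : 0 ≤ D := (hF0 0 0).trans (hD 0 0)
  -- the sum up to `q ^ (j + l)`
  have hsum : ∀ i : ℕ, ∑ n ∈ range (q ^ (j₀ + i + l)), F l n ≤ D * q ^ (j₀ + l) + ε / 4 * q ^ (j₀ + i + l) := by
    intro i
    induction i with
    | zero =>
      calc ∑ n ∈ range (q ^ (j₀ + 0 + l)), F l n ≤ ∑ _n ∈ range (q ^ (j₀ + 0 + l)), D :=
            sum_le_sum fun n _ => hD l n
        _ = D * q ^ (j₀ + l) := by
            rw [sum_const, card_range, nsmul_eq_mul, add_zero]; push_cast; ring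
        _ ≤ _ := by
            have : 0 ≤ ε / 4 * (q : ℝ) ^ (j₀ + 0 + l) := by positivity
            linarith
    | succ i ih =>
      have h1 := hj₀ (j₀ + i) (by omega) l
      have h2 : ∑ n ∈ range (q ^ (j₀ + (i + 1) + l)), F l n = ∑ n ∈ range (q ^ (j₀ + i + l)), F l n +
          ∑ n ∈ Ico (q ^ (j₀ + i + l)) (q ^ (j₀ + i + l + 1)), F l n := by
        rw [sum_range_add_sum_Ico _ (Nat.pow_le_pow_right (by omega) (by omega))]
        congr 2
        ring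
      have h3 : (q : ℝ) ^ (j₀ + (i + 1) + l) = q * q ^ (j₀ + i + l) := by ring
      have h4 : 0 < (q : ℝ) ^ (j₀ + i + l) := by positivity
      rw [h2, h3]
      have h5 : ε / 4 * (2 * (q : ℝ) ^ (j₀ + i + l)) ≤ ε / 4 * (q * (q : ℝ) ^ (j₀ + i + l)) := by
        apply mul_le_mul_of_nonneg_left _ (by positivity)
        exact mul_le_mul_of_nonneg_right hq2 h4.le
      linarith
  have h1 := hsum J'
  have h2 := hj₀ (j₀ + J') (by omega) l
  have h3 : ∑ n ∈ range M, F l n ≤ ∑ n ∈ range (q ^ (j₀ + J' + l)), F l n +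
      ∑ n ∈ Ico (q ^ (j₀ + J' + l)) (q ^ (j₀ + J' + l + 1)), F l n := by
    rw [sum_range_add_sum_Ico _ (Nat.pow_le_pow_right (by omega) (by omega))]
    exact sum_le_sum_of_subset_of_nonneg (range_subset_range.2 hM2.le) fun _ _ _ => hF0 _ _
  have h4 : D * (q : ℝ) ^ (j₀ + l) ≤ ε / 2 * q ^ (j₀ + J' + l) := by
    rw [div_lt_iff₀ hε] at hJ'
    have h5 : (q : ℝ) ^ (j₀ + J' + l) = q ^ J' * q ^ (j₀ + l) := by ring
    have h6 : 0 < (q : ℝ) ^ (j₀ + l) := by positivity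
    rw [h5, ← mul_assoc]
    apply mul_le_mul_of_nonneg_right _ h6.le
    linarith
  have h7 : ε * (q : ℝ) ^ (j₀ + J' + l) ≤ ε * M := mul_le_mul_of_nonneg_left hM1' hε.le
  linarith

/-- The main lemma: `P ^ k (G n)` is in mean close to a function of the leading digits. -/
theorem leading (hG : ∀ n, ∑ r ∈ range q, G (q * n + r) = (q : ℝ) • P (G n)) (hq : 2 ≤ q)
    {C : ℝ} (hC : ∀ i x, ‖(P ^ i) x‖ ≤ C * ‖x‖) {R : ℝ} (hR : ∀ n, ‖G n‖ ≤ R) {ε : ℝ} (hε : 0 < ε) :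
    ∃ k J : ℕ, ∀ l M : ℕ, q ^ (J + l) ≤ M → M < q ^ (J + l + 1) →
      ∑ n ∈ range M, ‖(P ^ k) (G n) - (P ^ (k + l)) (G (n / q ^ l))‖ ≤ ε * M := by
  obtain ⟨φ, B, hφ, hB⟩ := exists_limit P hC
  obtain ⟨hBP, hB0, hBle, hvar⟩ := limit_props P hC hφ hB
  have hR0 : 0 ≤ R := (norm_nonneg _).trans (hR 0)
  -- the bound for the differences
  have hX : ∀ l n, ‖G n - (P ^ l) (G (n / q ^ l))‖ ≤ R + |C| * R := by
    intro l n
    refine (norm_sub_le _ _).trans (add_le_add (hR n) ((hC _ _).trans ?_))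
    exact mul_le_mul (le_abs_self C) (hR _) (norm_nonneg _) (abs_nonneg _)
  set ε₁ : ℝ := ε ^ 2 / (2 * (C ^ 2 + 1)) with hε₁
  have hε₁0 : 0 < ε₁ := by positivity
  obtain ⟨j₁, hj₁⟩ := hB (R + |C| * R) ε₁ hε₁0
  set k := φ (j₁ + 1) with hk
  have hk0 : 0 < k := lt_of_le_of_lt (Nat.zero_le _) (hφ (by omega : j₁ < j₁ + 1))
  obtain ⟨J, hJ⟩ := initial_small (F := fun l n => B (G n - (P ^ l) (G (n / q ^ l)))) hq
    (fun l n => hB0 _) (D := Fintype.card ι * C ^ 2 * (R + |C| * R) ^ 2)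
    (fun l n => (hBle _).trans (mul_le_mul_of_nonneg_left (pow_le_pow_left₀ (norm_nonneg _) (hX l n) 2)
      (by positivity)))
    (fun ε hε => block_small P hG hBP hB0 hvar (by omega)
      (D := Fintype.card ι * C ^ 2 * R ^ 2)
      (fun n => (hBle _).trans (mul_le_mul_of_nonneg_left (pow_le_pow_left₀ (norm_nonneg _) (hR n) 2)
        (by positivity))) hε) hε₁0
  refine ⟨k, J, fun l M h1 h2 => ?_⟩
  have h3 := hJ l M h1 h2
  have h4 : ∀ n, ‖(P ^ k) (G n) - (P ^ (k + l)) (G (n / q ^ l))‖ ^ 2 ≤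
      C ^ 2 * (B (G n - (P ^ l) (G (n / q ^ l))) + ε₁) := by
    intro n
    have h5 : (P ^ k) (G n) - (P ^ (k + l)) (G (n / q ^ l)) = (P ^ k) (G n - (P ^ l) (G (n / q ^ l))) := by
      rw [map_sub, pow_add, Module.End.mul_apply]
    rw [h5]
    refine (norm_le_Nk P hC hk0 _).trans (mul_le_mul_of_nonneg_left ?_ (sq_nonneg _))
    have h6 := hj₁ (j₁ + 1) (by omega) _ (hX l n)
    have := (abs_le.1 h6).2
    linarith
  have h5 : ∀ n, ‖(P ^ k) (G n) - (P ^ (k + l)) (G (n / q ^ l))‖ ≤ ε / 2 +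
      ‖(P ^ k) (G n) - (P ^ (k + l)) (G (n / q ^ l))‖ ^ 2 / (2 * ε) := by
    intro n
    set u := ‖(P ^ k) (G n) - (P ^ (k + l)) (G (n / q ^ l))‖
    have h7 : ε / 2 + u ^ 2 / (2 * ε) - u = (ε - u) ^ 2 / (2 * ε) := by
      field_simp
      ring
    have h8 : 0 ≤ (ε - u) ^ 2 / (2 * ε) := by positivity
    linarith
  have hM0 : (0 : ℝ) ≤ M := Nat.cast_nonneg _
  calc ∑ n ∈ range M, ‖(P ^ k) (G n) - (P ^ (k + l)) (G (n / q ^ l))‖
      ≤ ∑ n ∈ range M, (ε / 2 + C ^ 2 * (B (G n - (P ^ l) (G (n / q ^ l))) + ε₁) / (2 * ε)) := by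
        apply sum_le_sum
        intro n _
        refine (h5 n).trans ?_
        have := div_le_div_of_nonneg_right (h4 n) (by positivity : (0 : ℝ) ≤ 2 * ε)
        linarith
    _ = ε / 2 * M + C ^ 2 * (∑ n ∈ range M, B (G n - (P ^ l) (G (n / q ^ l))) + ε₁ * M) / (2 * ε) := by
        have e1 : ∑ _n ∈ range M, ε / 2 = ε / 2 * M := by
          rw [sum_const, card_range, nsmul_eq_mul]; ring
        have e2 : ∑ n ∈ range M, C ^ 2 * (B (G n - (P ^ l) (G (n / q ^ l))) + ε₁) / (2 * ε) =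
            C ^ 2 * (∑ n ∈ range M, B (G n - (P ^ l) (G (n / q ^ l))) + ε₁ * M) / (2 * ε) := by
          rw [← sum_div, ← mul_sum, sum_add_distrib, sum_const, card_range, nsmul_eq_mul, mul_comm (M : ℝ)]
        rw [sum_add_distrib, e1, e2]
    _ ≤ ε / 2 * M + C ^ 2 * (ε₁ * M + ε₁ * M) / (2 * ε) := by
        have h9 : C ^ 2 * (∑ n ∈ range M, B (G n - (P ^ l) (G (n / q ^ l))) + ε₁ * M) ≤
            C ^ 2 * (ε₁ * M + ε₁ * M) := mul_le_mul_of_nonneg_left (by linarith) (sq_nonneg _)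
        have := div_le_div_of_nonneg_right h9 (by positivity : (0 : ℝ) ≤ 2 * ε)
        linarith
    _ ≤ ε * M := by
        have h10 : C ^ 2 * (ε₁ * M + ε₁ * M) / (2 * ε) = (C ^ 2 / (C ^ 2 + 1)) * (ε / 2 * M) := by
          rw [hε₁]
          field_simp
          ring
        rw [h10]
        have h11 : C ^ 2 / (C ^ 2 + 1) ≤ 1 := by
          rw [div_le_one (by positivity)]
          linarith
        have h12 : 0 ≤ ε / 2 * M := by positivity
        nlinarith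

end Pool.Agent.Y834.AU
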