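import Mathlib
import Pool.Agent.Y834.AU.Incr

set_option autoImplicit false

namespace Pool.Agent.Y834.AU

open Finset Filter Topology Submodule

/-- functions of a finite dimensional space are determined by finitely many values -/
theorem exists_points (W : Submodule ℝ (ℕ → ℝ)) [FiniteDimensional ℝ W] :
    ∃ F : Finset ℕ, ∀ h ∈ W, (∀ n ∈ F, h n = 0) → h = 0 := by
  classical
  let Z : Finset ℕ → Submodule ℝ (ℕ → ℝ) := fun F =>
    { carrier := {h | h ∈ W ∧ ∀ n ∈ F, h n = 0}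
      add_mem' := fun {a b} ha hb => ⟨W.add_mem ha.1 hb.1, fun n hn => by
        rw [Pi.add_apply, ha.2 n hn, hb.2 n hn, add_zero]⟩
      zero_mem' := ⟨W.zero_mem, fun n _ => rfl⟩
      smul_mem' := fun c a ha => ⟨W.smul_mem c ha.1, fun n hn => by
        rw [Pi.smul_apply, ha.2 n hn, smul_zero]⟩ }
  have hZW : ∀ F, Z F ≤ W := fun F h hh => hh.1
  have hfin : ∀ F, FiniteDimensional ℝ (Z F) := fun F => Submodule.finiteDimensional_of_le (hZW F)
  have hex : ∃ d : ℕ, ∃ F : Finset ℕ, Module.finrank ℝ (Z F) = d := ⟨_, ∅, rfl⟩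
  obtain ⟨F, hF⟩ := Nat.find_spec hex
  refine ⟨F, fun h hh h0 => ?_⟩
  by_contra hne
  obtain ⟨n, hn⟩ : ∃ n, h n ≠ 0 := by
    by_contra hcon
    push Not at hcon
    exact hne (funext hcon)
  have hlt : Z (insert n F) < Z F := by
    apply lt_of_le_of_ne
    · intro f hf
      exact ⟨hf.1, fun m hm => hf.2 m (mem_insert_of_mem hm)⟩
    · intro heq
      have h1 : h ∈ Z F := ⟨hh, h0⟩
      rw [← heq] at h1
      exact hn (h1.2 n (mem_insert_self n F))
  have := hfin F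
  have h1 := Submodule.finrank_lt_finrank_of_lt hlt
  rw [hF] at h1
  exact Nat.find_min hex h1 ⟨insert n F, rfl⟩

theorem exists_rep (W : Submodule ℝ (ℕ → ℝ)) [FiniteDimensional ℝ W] :
    ∃ (F : Finset ℕ) (w : F → ℕ → ℝ), (∀ b, w b ∈ W) ∧ ∀ h ∈ W, ∀ m, h m = ∑ b : F, h b * w b m := by
  classical
  obtain ⟨F, hF⟩ := exists_points W
  let ρ : W →ₗ[ℝ] (F → ℝ) :=
    { toFun := fun h b => (h : ℕ → ℝ) b
      map_add' := fun _ _ => rfl
      map_smul' := fun _ _ => rfl }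
  have hker : LinearMap.ker ρ = ⊥ := by
    rw [LinearMap.ker_eq_bot']
    intro h hh
    apply Subtype.ext
    exact hF h h.2 fun n hn => congrFun hh ⟨n, hn⟩
  obtain ⟨L, hL⟩ := LinearMap.exists_leftInverse_of_injective ρ hker
  refine ⟨F, fun b => (L (Pi.single b 1) : ℕ → ℝ), fun b => (L _).2, fun h hh m => ?_⟩
  have h1 : L (ρ ⟨h, hh⟩) = ⟨h, hh⟩ := LinearMap.congr_fun hL _
  have h2 : ρ ⟨h, hh⟩ = ∑ b : F, h b • Pi.single b (1 : ℝ) := by
    ext c
    simp [ρ, Finset.sum_apply, Pi.single_apply]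
  rw [h2, map_sum] at h1
  have h3 := congrFun (congrArg Subtype.val h1) m
  simp only [map_smul] at h3
  rw [← h3]
  simp

/-- the operator of the block means -/
noncomputable def Kop (q : ℕ) : (ℕ → ℝ) →ₗ[ℝ] (ℕ → ℝ) where
  toFun h := fun n => (∑ r ∈ range q, h (q * n + r)) / q
  map_add' a b := by
    ext n
    simp only [Pi.add_apply, sum_add_distrib, add_div]
  map_smul' c a := by
    ext n
    simp only [Pi.smul_apply, smul_eq_mul, ← mul_sum, RingHom.id_apply, mul_div_assoc]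

theorem Kop_apply (q : ℕ) (h : ℕ → ℝ) (n : ℕ) : Kop q h n = (∑ r ∈ range q, h (q * n + r)) / q := rfl

theorem Kop_bound {q : ℕ} (hq : 0 < q) {h : ℕ → ℝ} {C : ℝ} (hC : ∀ n, |h n| ≤ C) (i : ℕ) :
    ∀ n, |(Kop q ^ i) h n| ≤ C := by
  induction i with
  | zero => exact hC
  | succ i ih =>
    intro n
    have hq0 : (0 : ℝ) < q := by exact_mod_cast hq
    rw [pow_succ', Module.End.mul_apply, Kop_apply, abs_div, Nat.abs_cast, div_le_iff₀ hq0]
    calc |∑ r ∈ range q, (Kop q ^ i) h (q * n + r)| ≤ ∑ _r ∈ range q, C :=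
          (abs_sum_le_sum_abs _ _).trans (sum_le_sum fun r _ => ih _)
      _ = C * q := by rw [sum_const, card_range, nsmul_eq_mul]; ring

theorem Kop_mem {q : ℕ} {W : Submodule ℝ (ℕ → ℝ)} (hK : ∀ h ∈ W, Kop q h ∈ W) {h : ℕ → ℝ} (hh : h ∈ W)
    (i : ℕ) : (Kop q ^ i) h ∈ W := by
  induction i with
  | zero => exact hh
  | succ i ih => rw [pow_succ', Module.End.mul_apply]; exact hK _ ih

/-- the real form -/
theorem real_leading {q : ℕ} (hq : 2 ≤ q) (W : Submodule ℝ (ℕ → ℝ)) [FiniteDimensional ℝ W]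
    (hK : ∀ h ∈ W, Kop q h ∈ W) (hb : ∀ h ∈ W, ∃ C : ℝ, ∀ n, |h n| ≤ C) {g₁ g₂ : ℕ → ℝ} (hg₁ : g₁ ∈ W)
    (hg₂ : g₂ ∈ W) {ε : ℝ} (hε : 0 < ε) :
    ∃ k J : ℕ, ∀ l M : ℕ, q ^ (J + l) ≤ M → M < q ^ (J + l + 1) →
      ∑ n ∈ range M, |(Kop q ^ k) g₁ n - (Kop q ^ (k + l)) g₁ (n / q ^ l)| ≤ ε * M ∧
      ∑ n ∈ range M, |(Kop q ^ k) g₂ n - (Kop q ^ (k + l)) g₂ (n / q ^ l)| ≤ ε * M := by
  classical
  obtain ⟨F, w, hw, hrep⟩ := exists_rep W
  have hq0 : (0 : ℝ) < q := by exact_mod_cast (by omega : 0 < q)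
  choose c hc using fun b => hb (w b) (hw b)
  set C₀ : ℝ := ∑ b : F, |c b| with hC₀
  have hwC : ∀ b n, |w b n| ≤ C₀ := fun b n =>
    (hc b n).trans ((le_abs_self _).trans (single_le_sum (f := fun b => |c b|) (fun _ _ => abs_nonneg _) (mem_univ b)))
  have hC₀0 : 0 ≤ C₀ := sum_nonneg fun _ _ => abs_nonneg _
  let P : (F → ℝ) →ₗ[ℝ] (F → ℝ) :=
    { toFun := fun x a => ∑ b : F, Kop q (w a) b * x b
      map_add' := fun x y => by
        ext a
        simp only [Pi.add_apply, mul_add, sum_add_distrib]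
      map_smul' := fun t x => by
        ext a
        simp only [Pi.smul_apply, smul_eq_mul, RingHom.id_apply, mul_sum]
        exact sum_congr rfl fun b _ => by ring }
  have hP : ∀ x a, P x a = ∑ b : F, Kop q (w a) b * x b := fun x a => rfl
  -- iterates
  have hPi : ∀ (i : ℕ) (x : F → ℝ) (a : F), (P ^ (i + 1)) x a = ∑ b : F, (Kop q ^ (i + 1)) (w a) b * x b := by
    intro i
    induction i with
    | zero =>
      intro x a
      rw [zero_add, pow_one, pow_one]
      rfl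
    | succ i ih =>
      intro x a
      rw [pow_succ, Module.End.mul_apply, ih]
      simp only [hP, mul_sum]
      rw [sum_comm]
      apply sum_congr rfl
      intro d _
      have h1 : (Kop q ^ (i + 1)) (w a) = ∑ b : F, (Kop q ^ (i + 1)) (w a) b • w b := by
        ext m
        rw [Finset.sum_apply]
        exact hrep _ (Kop_mem hK (hw a) (i + 1)) m
      have h2 : (Kop q ^ (i + 1 + 1)) (w a) d = ∑ b : F, (Kop q ^ (i + 1)) (w a) b * Kop q (w b) d := by
        rw [pow_succ', Module.End.mul_apply]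
        conv_lhs => rw [h1]
        rw [map_sum, Finset.sum_apply]
        exact sum_congr rfl fun b _ => by rw [map_smul]; rfl
      rw [h2, sum_mul]
      exact sum_congr rfl fun b _ => by ring
  have hPb : ∀ i x, ‖(P ^ i) x‖ ≤ (1 + Fintype.card F * C₀) * ‖x‖ := by
    intro i x
    have hx0 := norm_nonneg x
    cases i with
    | zero =>
      rw [pow_zero]
      have : 0 ≤ (Fintype.card F : ℝ) * C₀ * ‖x‖ := by positivity
      change ‖x‖ ≤ _
      linarith
    | succ i =>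
      rw [pi_norm_le_iff_of_nonneg (by positivity)]
      intro a
      rw [hPi, Real.norm_eq_abs]
      calc |∑ b : F, (Kop q ^ (i + 1)) (w a) b * x b| ≤ ∑ b : F, C₀ * ‖x‖ := by
            refine (abs_sum_le_sum_abs _ _).trans (sum_le_sum fun b _ => ?_)
            rw [abs_mul]
            exact mul_le_mul (Kop_bound (by omega) (hwC a) _ _) (norm_le_pi_norm x b) (abs_nonneg _) hC₀0
        _ = Fintype.card F * C₀ * ‖x‖ := by
            rw [sum_const, card_univ, nsmul_eq_mul]; ring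
        _ ≤ _ := by nlinarith
  -- the state vector
  let G : ℕ → F → ℝ := fun n a => w a n
  have hG : ∀ n, ∑ r ∈ range q, G (q * n + r) = (q : ℝ) • P (G n) := by
    intro n
    ext a
    rw [Finset.sum_apply, Pi.smul_apply, smul_eq_mul, hP]
    have h1 := hrep _ (hK _ (hw a)) n
    rw [Kop_apply, div_eq_iff hq0.ne'] at h1
    change ∑ r ∈ range q, w a (q * n + r) = q * ∑ b : F, Kop q (w a) b * w b n
    rw [h1]
    ring
  have hGb : ∀ n, ‖G n‖ ≤ C₀ := by
    intro n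
    rw [pi_norm_le_iff_of_nonneg hC₀0]
    intro a
    exact hwC a n
  have hval : ∀ g ∈ W, ∀ i m, (Kop q ^ i) g m = ∑ a : F, g a * (P ^ i) (G m) a := by
    intro g hg i m
    cases i with
    | zero => exact hrep g hg m
    | succ i =>
      have h1 : g = ∑ a : F, g a • w a := by
        ext m
        rw [Finset.sum_apply]
        exact hrep _ hg m
      conv_lhs => rw [h1]
      rw [map_sum, Finset.sum_apply]
      apply sum_congr rfl
      intro a _
      rw [map_smul, Pi.smul_apply, smul_eq_mul, hPi]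
      congr 1
      exact hrep _ (Kop_mem hK (hw a) (i + 1)) m
  set A : ℝ := ∑ a : F, |g₁ a| + ∑ a : F, |g₂ a| + 1 with hA
  have hA1 : 0 ≤ ∑ a : F, |g₁ a| := sum_nonneg fun _ _ => abs_nonneg _
  have hA2 : 0 ≤ ∑ a : F, |g₂ a| := sum_nonneg fun _ _ => abs_nonneg _
  have hA0 : 0 < A := by positivity
  obtain ⟨k, J, hkJ⟩ := leading P hG hq hPb hGb (ε := ε / A) (by positivity)
  have main : ∀ g ∈ W, (∑ a : F, |g a| ≤ A) → ∀ l M : ℕ, q ^ (J + l) ≤ M → M < q ^ (J + l + 1) →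
      ∑ n ∈ range M, |(Kop q ^ k) g n - (Kop q ^ (k + l)) g (n / q ^ l)| ≤ ε * M := by
    intro g hg hgA l M h1 h2
    have h3 : ∀ n, |(Kop q ^ k) g n - (Kop q ^ (k + l)) g (n / q ^ l)| ≤
        A * ‖(P ^ k) (G n) - (P ^ (k + l)) (G (n / q ^ l))‖ := by
      intro n
      rw [hval g hg, hval g hg, ← sum_sub_distrib]
      calc |∑ a : F, (g a * (P ^ k) (G n) a - g a * (P ^ (k + l)) (G (n / q ^ l)) a)|
          ≤ ∑ a : F, |g a| * ‖(P ^ k) (G n) - (P ^ (k + l)) (G (n / q ^ l))‖ := by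
            refine (abs_sum_le_sum_abs _ _).trans (sum_le_sum fun a _ => ?_)
            rw [← mul_sub, abs_mul]
            exact mul_le_mul_of_nonneg_left (norm_le_pi_norm ((P ^ k) (G n) - (P ^ (k + l)) (G (n / q ^ l))) a)
              (abs_nonneg _)
        _ ≤ _ := by
            rw [← sum_mul]
            exact mul_le_mul_of_nonneg_right hgA (norm_nonneg _)
    calc ∑ n ∈ range M, |(Kop q ^ k) g n - (Kop q ^ (k + l)) g (n / q ^ l)|
        ≤ ∑ n ∈ range M, A * ‖(P ^ k) (G n) - (P ^ (k + l)) (G (n / q ^ l))‖ := sum_le_sum fun n _ => h3 n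
      _ ≤ A * (ε / A * M) := by
          rw [← mul_sum]
          exact mul_le_mul_of_nonneg_left (hkJ l M h1 h2) hA0.le
      _ = ε * M := by field_simp
  exact ⟨k, J, fun l M h1 h2 => ⟨main g₁ hg₁ (by linarith) l M h1 h2, main g₂ hg₂ (by linarith) l M h1 h2⟩⟩

/-! ### complex sequences -/

/-- the mean over the block of length `Q` -/
noncomputable def bm (Q : ℕ) (g : ℕ → ℂ) (n : ℕ) : ℂ := (∑ r ∈ range Q, g (Q * n + r)) / Q

/-- the `q`-kernel -/
def ker (q : ℕ) (g : ℕ → ℂ) : Set (ℕ → ℂ) := {h | ∃ k r : ℕ, r < q ^ k ∧ h = fun n => g (q ^ k * n + r)}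

theorem Kop_pow_apply {q : ℕ} (hq : 0 < q) (h : ℕ → ℝ) (i : ℕ) : ∀ n,
    (Kop q ^ i) h n = (∑ r ∈ range (q ^ i), h (q ^ i * n + r)) / ((q ^ i : ℕ) : ℝ) := by
  have hq0 : (0 : ℝ) < q := by exact_mod_cast hq
  induction i with
  | zero => intro n; simp
  | succ i ih =>
    intro n
    rw [pow_succ', Module.End.mul_apply, Kop_apply]
    simp only [ih]
    rw [← sum_div, show q ^ (i + 1) = q * q ^ i by rw [pow_succ'], sum_range_mul]
    push_cast
    rw [div_div, mul_comm ((q : ℝ) ^ i) (q : ℝ)]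
    congr 1
    apply sum_congr rfl
    intro s _
    apply sum_congr rfl
    intro t _
    congr 1
    ring

theorem bm_re {q : ℕ} (hq : 0 < q) (g : ℕ → ℂ) (i n : ℕ) :
    (bm (q ^ i) g n).re = (Kop q ^ i) (fun n => (g n).re) n := by
  rw [Kop_pow_apply hq, bm, ← Complex.ofReal_natCast, Complex.div_ofReal_re, Complex.re_sum]

theorem bm_im {q : ℕ} (hq : 0 < q) (g : ℕ → ℂ) (i n : ℕ) :
    (bm (q ^ i) g n).im = (Kop q ^ i) (fun n => (g n).im) n := by
  rw [Kop_pow_apply hq, bm, ← Complex.ofReal_natCast, Complex.div_ofReal_im, Complex.im_sum]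

/-- the real part as a real linear map -/
def reL : (ℕ → ℂ) →ₗ[ℝ] (ℕ → ℝ) where
  toFun h := fun n => (h n).re
  map_add' _ _ := rfl
  map_smul' c a := by
    ext n
    simp

/-- the block mean operator on complex sequences -/
noncomputable def KC (q : ℕ) : (ℕ → ℂ) →ₗ[ℂ] (ℕ → ℂ) where
  toFun h := fun n => (∑ r ∈ range q, h (q * n + r)) / q
  map_add' a b := by
    ext n
    simp only [Pi.add_apply, sum_add_distrib, add_div]
  map_smul' c a := by
    ext n
    simp only [Pi.smul_apply, smul_eq_mul, ← mul_sum, RingHom.id_apply, mul_div_assoc]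

theorem self_mem_ker (q : ℕ) (g : ℕ → ℂ) : g ∈ ker q g := ⟨0, 0, by simp, by simp⟩

theorem KC_mem {q : ℕ} (hq : 0 < q) (g : ℕ → ℂ) : ∀ h ∈ span ℂ (ker q g), KC q h ∈ span ℂ (ker q g) := by
  have : span ℂ (ker q g) ≤ (span ℂ (ker q g)).comap (KC q) := by
    rw [span_le]
    rintro h ⟨k, r, hr, rfl⟩
    change KC q (fun n => g (q ^ k * n + r)) ∈ span ℂ (ker q g)
    have h1 : KC q (fun n => g (q ^ k * n + r)) = (1 / (q : ℂ)) • ∑ s ∈ range q,
        (fun n => g (q ^ (k + 1) * n + (q ^ k * s + r))) := by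
      ext n
      rw [Pi.smul_apply, Finset.sum_apply, smul_eq_mul]
      change (∑ s ∈ range q, g (q ^ k * (q * n + s) + r)) / (q : ℂ) = _
      rw [div_eq_mul_one_div, mul_comm]
      congr 1
      apply sum_congr rfl
      intro s _
      congr 1
      ring
    rw [h1]
    apply Submodule.smul_mem
    apply Submodule.sum_mem
    intro s hs
    rw [mem_range] at hs
    apply subset_span
    refine ⟨k + 1, q ^ k * s + r, ?_, rfl⟩
    calc q ^ k * s + r < q ^ k * s + q ^ k := by omega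
      _ = q ^ k * (s + 1) := by ring
      _ ≤ q ^ k * q := Nat.mul_le_mul_left _ hs
      _ = q ^ (k + 1) := by rw [pow_succ]
  exact this

theorem span_bdd {q : ℕ} {g : ℕ → ℂ} {C : ℝ} (hC : ∀ n, ‖g n‖ ≤ C) :
    ∀ h ∈ span ℂ (ker q g), ∃ C : ℝ, ∀ n, ‖h n‖ ≤ C := by
  intro h hh
  induction hh using span_induction with
  | mem x hx =>
    obtain ⟨k, r, -, rfl⟩ := hx
    exact ⟨C, fun n => hC _⟩
  | zero => exact ⟨0, fun n => by simp⟩
  | add x y _ _ hx hy =>
    obtain ⟨a, ha⟩ := hx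
    obtain ⟨b, hb⟩ := hy
    exact ⟨a + b, fun n => (norm_add_le _ _).trans (add_le_add (ha n) (hb n))⟩
  | smul c x _ hx =>
    obtain ⟨a, ha⟩ := hx
    exact ⟨‖c‖ * a, fun n => by
      rw [Pi.smul_apply, norm_smul]
      exact mul_le_mul_of_nonneg_left (ha n) (norm_nonneg _)⟩

/-- Regular sequences: the means over the blocks of length `q ^ k` are in mean close to functions of
the leading digits. -/
theorem regular_leading {q : ℕ} (hq : 2 ≤ q) {g : ℕ → ℂ} {C : ℝ} (hC : ∀ n, ‖g n‖ ≤ C)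
    (hfd : FiniteDimensional ℂ (span ℂ (ker q g))) {ε : ℝ} (hε : 0 < ε) :
    ∃ k J : ℕ, ∀ l M : ℕ, q ^ (J + l) ≤ M → M < q ^ (J + l + 1) →
      ∑ n ∈ range M, ‖bm (q ^ k) g n - bm (q ^ (k + l)) g (n / q ^ l)‖ ≤ ε * M := by
  have hq1 : 0 < q := by omega
  set V : Submodule ℂ (ℕ → ℂ) := span ℂ (ker q g) with hV
  have hfr : Module.Finite ℝ V := Module.Finite.trans ℂ V
  have hfr2 : Module.Finite ℝ (V.restrictScalars ℝ) := hfr
  set W : Submodule ℝ (ℕ → ℝ) := (V.restrictScalars ℝ).map reL with hW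
  have hWf : FiniteDimensional ℝ W := inferInstanceAs (Module.Finite ℝ ((V.restrictScalars ℝ).map reL))
  have hWK : ∀ h ∈ W, Kop q h ∈ W := by
    rintro _ ⟨f, hf, rfl⟩
    refine ⟨KC q f, KC_mem hq1 g f hf, ?_⟩
    ext n
    change ((∑ r ∈ range q, f (q * n + r)) / (q : ℂ)).re = (∑ r ∈ range q, (f (q * n + r)).re) / q
    rw [← Complex.ofReal_natCast, Complex.div_ofReal_re, Complex.re_sum]
  have hWb : ∀ h ∈ W, ∃ C : ℝ, ∀ n, |h n| ≤ C := by
    rintro _ ⟨f, hf, rfl⟩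
    obtain ⟨c, hc⟩ := span_bdd hC f hf
    exact ⟨c, fun n => (Complex.abs_re_le_norm _).trans (hc n)⟩
  have hgV : g ∈ V := subset_span (self_mem_ker q g)
  have h1 : (fun n => (g n).re) ∈ W := ⟨g, hgV, rfl⟩
  have h2 : (fun n => (g n).im) ∈ W := by
    refine ⟨(-Complex.I) • g, V.smul_mem _ hgV, ?_⟩
    ext n
    change ((-Complex.I) * g n).re = (g n).im
    simp
  obtain ⟨k, J, H⟩ := real_leading hq W hWK hWb h1 h2 (ε := ε / 2) (by positivity)
  refine ⟨k, J, fun l M h3 h4 => ?_⟩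
  obtain ⟨h5, h6⟩ := H l M h3 h4
  calc ∑ n ∈ range M, ‖bm (q ^ k) g n - bm (q ^ (k + l)) g (n / q ^ l)‖
      ≤ ∑ n ∈ range M, (|(Kop q ^ k) (fun n => (g n).re) n - (Kop q ^ (k + l)) (fun n => (g n).re) (n / q ^ l)| +
        |(Kop q ^ k) (fun n => (g n).im) n - (Kop q ^ (k + l)) (fun n => (g n).im) (n / q ^ l)|) := by
        apply sum_le_sum
        intro n _
        refine (Complex.norm_le_abs_re_add_abs_im _).trans (le_of_eq ?_)
        rw [Complex.sub_re, Complex.sub_im, bm_re hq1, bm_re hq1, bm_im hq1, bm_im hq1]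
    _ ≤ _ := by
        rw [sum_add_distrib]
        linarith

end Pool.Agent.Y834.AU
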