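import Mathlib
import Pool.Agent.Y834.AU.Rep

set_option autoImplicit false

namespace Pool.Agent.Y834.AU

open Finset Filter Topology

/-- summation by parts -/
theorem abel (f : ℕ → ℂ) (c : ℕ → ℂ) (N : ℕ) :
    ∑ n ∈ Icc 1 N, f n * c n = (∑ m ∈ Icc 1 N, f m) * c (N + 1) +
      ∑ n ∈ Icc 1 N, (∑ m ∈ Icc 1 n, f m) * (c n - c (n + 1)) := by
  induction N with
  | zero => simp
  | succ N ih =>
    rw [sum_Icc_succ_top (by omega), ih, sum_Icc_succ_top (by omega : 1 ≤ N + 1),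
      sum_Icc_succ_top (by omega : 1 ≤ N + 1), sum_Icc_succ_top (by omega : 1 ≤ N + 1)]
    ring

theorem abel_le {f : ℕ → ℂ} {c : ℕ → ℂ} {N : ℕ} {K V C : ℝ} (hK : ∀ m ≤ N, ‖∑ n ∈ Icc 1 m, f n‖ ≤ K)
    (hc : ∀ n, ‖c n‖ ≤ C) (hV : ∑ n ∈ Icc 1 N, ‖c (n + 1) - c n‖ ≤ V) :
    ‖∑ n ∈ Icc 1 N, f n * c n‖ ≤ K * (C + V) := by
  have hK0 : 0 ≤ K := (norm_nonneg _).trans (hK 0 (Nat.zero_le _))
  rw [abel]
  calc ‖(∑ m ∈ Icc 1 N, f m) * c (N + 1) + ∑ n ∈ Icc 1 N, (∑ m ∈ Icc 1 n, f m) * (c n - c (n + 1))‖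
      ≤ K * C + ∑ n ∈ Icc 1 N, K * ‖c (n + 1) - c n‖ := by
        refine (norm_add_le _ _).trans (add_le_add ?_ ((norm_sum_le _ _).trans (sum_le_sum fun n hn => ?_)))
        · rw [norm_mul]
          exact mul_le_mul (hK N le_rfl) (hc _) (norm_nonneg _) hK0
        · rw [norm_mul, norm_sub_rev (c n)]
          exact mul_le_mul_of_nonneg_right (hK n (mem_Icc.1 hn).2) (norm_nonneg _)
    _ ≤ _ := by
        rw [← mul_sum]
        have := mul_le_mul_of_nonneg_left hV hK0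
        linarith

theorem shift_le {F : ℕ → ℂ} {D : ℝ} (hF : ∀ n, ‖F n‖ ≤ D) (N : ℕ) : ∀ j : ℕ,
    ‖∑ n ∈ Icc 1 N, F n - ∑ n ∈ Icc 1 N, F (n + j)‖ ≤ 2 * D * j := by
  intro j
  induction j with
  | zero => simp
  | succ j ih =>
    have h1 : ∑ n ∈ Icc 1 N, F (n + j) - ∑ n ∈ Icc 1 N, F (n + (j + 1)) = F (1 + j) - F (N + 1 + j) := by
      have h2 : ∑ n ∈ Icc 1 N, F (n + (j + 1)) = ∑ n ∈ Icc 2 (N + 1), F (n + j) := by
        rw [← Finset.map_add_right_Icc 1 N 1]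
        rw [sum_map]
        apply sum_congr rfl
        intro n _
        congr 1
        change n + (j + 1) = n + 1 + j
        ring
      have h3 : ∑ n ∈ Icc 1 (N + 1), F (n + j) = F (1 + j) + ∑ n ∈ Icc 2 (N + 1), F (n + j) := by
        rw [← Finset.add_sum_Ioc_eq_sum_Icc (by omega : 1 ≤ N + 1)]
        rfl
      have h4 : ∑ n ∈ Icc 1 (N + 1), F (n + j) = ∑ n ∈ Icc 1 N, F (n + j) + F (N + 1 + j) := by
        rw [sum_Icc_succ_top (by omega)]
      rw [h2]
      linear_combination h3 - h4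
    have h5 : ∑ n ∈ Icc 1 N, F n - ∑ n ∈ Icc 1 N, F (n + (j + 1)) =
        (∑ n ∈ Icc 1 N, F n - ∑ n ∈ Icc 1 N, F (n + j)) + (F (1 + j) - F (N + 1 + j)) := by
      rw [← h1]
      ring
    rw [h5]
    refine (norm_add_le _ _).trans ?_
    have h6 := (norm_sub_le (F (1 + j)) (F (N + 1 + j))).trans (add_le_add (hF _) (hF _))
    push_cast
    linarith

open Classical in
/-- the integers at which a window of length `H` is not constant -/
noncomputable def bad (f : ℕ → ℂ) (H N : ℕ) : Finset ℕ := (Icc 1 N).filter (fun n => ¬ ∀ j ≤ H, f (n + j) = f n)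

/-- sliding windows -/
theorem slide {f g c : ℕ → ℂ} (hf : ∀ n, ‖f n‖ ≤ 1) (hg : ∀ n, ‖g n‖ ≤ 1) {N H : ℕ} (hH : 1 ≤ H) {K V : ℝ}
    (hK : ∀ m ≤ N, ‖∑ n ∈ Icc 1 m, f n‖ ≤ K) (hc : ∀ n, ‖c n‖ ≤ 1)
    (hV : ∑ n ∈ Icc 1 N, ‖c (n + 1) - c n‖ ≤ V) :
    ‖∑ n ∈ Icc 1 N, f n * g n‖ ≤ 2 * H + 2 * #(bad f H N) + K * (1 + V) +
      ∑ n ∈ Icc 1 N, ‖(∑ j ∈ range H, g (n + j)) / H - c n‖ := by
  classical
  have hH0 : (0 : ℝ) < H := by exact_mod_cast hH
  have hHC : (H : ℂ) ≠ 0 := by exact_mod_cast (by omega : H ≠ 0)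
  have hfg : ∀ n, ‖f n * g n‖ ≤ 1 := fun n => by
    rw [norm_mul]
    exact mul_le_one₀ (hf n) (norm_nonneg _) (hg n)
  -- the four parts
  have e0 : ∑ n ∈ Icc 1 N, f n * g n =
      (∑ j ∈ range H, (∑ n ∈ Icc 1 N, f n * g n - ∑ n ∈ Icc 1 N, f (n + j) * g (n + j))) / H +
      (∑ j ∈ range H, ∑ n ∈ Icc 1 N, (f (n + j) - f n) * g (n + j)) / H +
      ∑ n ∈ Icc 1 N, f n * ((∑ j ∈ range H, g (n + j)) / H - c n) + ∑ n ∈ Icc 1 N, f n * c n := by
    have h1 : ∑ n ∈ Icc 1 N, f n * ((∑ j ∈ range H, g (n + j)) / H - c n) =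
        (∑ j ∈ range H, ∑ n ∈ Icc 1 N, f n * g (n + j)) / H - ∑ n ∈ Icc 1 N, f n * c n := by
      rw [sum_comm, sum_div, ← sum_sub_distrib]
      apply sum_congr rfl
      intro n _
      rw [← mul_sum]
      ring
    have h2 : ∑ j ∈ range H, ∑ n ∈ Icc 1 N, (f (n + j) - f n) * g (n + j) =
        ∑ j ∈ range H, ∑ n ∈ Icc 1 N, f (n + j) * g (n + j) - ∑ j ∈ range H, ∑ n ∈ Icc 1 N, f n * g (n + j) := by
      rw [← sum_sub_distrib]
      apply sum_congr rfl
      intro j _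
      rw [← sum_sub_distrib]
      exact sum_congr rfl fun n _ => by ring
    rw [h1, h2, sum_sub_distrib, sum_const, card_range, nsmul_eq_mul]
    field_simp
    ring
  have b1 : ‖(∑ j ∈ range H, (∑ n ∈ Icc 1 N, f n * g n - ∑ n ∈ Icc 1 N, f (n + j) * g (n + j))) / (H : ℂ)‖ ≤
      2 * H := by
    rw [norm_div, Complex.norm_natCast, div_le_iff₀ hH0]
    calc _ ≤ ∑ _j ∈ range H, 2 * (H : ℝ) := by
          refine (norm_sum_le _ _).trans (sum_le_sum fun j hj => ?_)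
          refine (shift_le hfg N j).trans ?_
          have : (j : ℝ) ≤ H := by exact_mod_cast (mem_range.1 hj).le
          linarith
      _ = 2 * H * H := by rw [sum_const, card_range, nsmul_eq_mul]; ring
  have b2 : ‖(∑ j ∈ range H, ∑ n ∈ Icc 1 N, (f (n + j) - f n) * g (n + j)) / (H : ℂ)‖ ≤ 2 * #(bad f H N) := by
    rw [norm_div, Complex.norm_natCast, div_le_iff₀ hH0]
    calc _ ≤ ∑ _j ∈ range H, 2 * (#(bad f H N) : ℝ) := by
          refine (norm_sum_le _ _).trans (sum_le_sum fun j hj => ?_)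
          have h3 : ∑ n ∈ Icc 1 N, (f (n + j) - f n) * g (n + j) =
              ∑ n ∈ bad f H N, (f (n + j) - f n) * g (n + j) := by
            unfold bad
            rw [sum_filter]
            apply sum_congr rfl
            intro n _
            split_ifs with h4
            · rw [h4 j (mem_range.1 hj).le, sub_self, zero_mul]
            · rfl
          rw [h3]
          calc ‖∑ n ∈ bad f H N, (f (n + j) - f n) * g (n + j)‖ ≤ ∑ _n ∈ bad f H N, (2 : ℝ) := by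
                refine (norm_sum_le _ _).trans (sum_le_sum fun n _ => ?_)
                rw [norm_mul]
                have h5 : ‖f (n + j) - f n‖ ≤ 2 := (norm_sub_le _ _).trans (by linarith [hf (n + j), hf n])
                calc _ ≤ 2 * 1 := mul_le_mul h5 (hg _) (norm_nonneg _) (by norm_num)
                  _ = 2 := by norm_num
            _ = _ := by rw [sum_const, nsmul_eq_mul]; ring
      _ = _ := by rw [sum_const, card_range, nsmul_eq_mul]; ring
  have b3 : ‖∑ n ∈ Icc 1 N, f n * ((∑ j ∈ range H, g (n + j)) / H - c n)‖ ≤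
      ∑ n ∈ Icc 1 N, ‖(∑ j ∈ range H, g (n + j)) / H - c n‖ := by
    refine (norm_sum_le _ _).trans (sum_le_sum fun n _ => ?_)
    rw [norm_mul]
    exact mul_le_of_le_one_left (norm_nonneg _) (hf n)
  have b4 := abel_le hK hc hV
  rw [e0]
  refine (norm_add_le _ _).trans ?_
  refine (add_le_add (norm_add_le _ _) le_rfl).trans ?_
  refine (add_le_add (add_le_add (norm_add_le _ _) le_rfl) le_rfl).trans ?_
  linarith

/-- a function of `n / L` has few jumps -/
theorem jumps {h : ℕ → ℂ} {C : ℝ} (hh : ∀ n, ‖h n‖ ≤ C) (L : ℕ) (N : ℕ) :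
    ∑ n ∈ Icc 1 N, ‖h ((n + 1) / L) - h (n / L)‖ ≤ 2 * C * (((N + 1) / L : ℕ) : ℝ) := by
  have hC0 : 0 ≤ C := (norm_nonneg _).trans (hh 0)
  induction N with
  | zero => simp; positivity
  | succ N ih =>
    rw [sum_Icc_succ_top (by omega)]
    have h1 : (N + 1 + 1) / L = (N + 1) / L ∨ (N + 1 + 1) / L = (N + 1) / L + 1 := by
      have h := Nat.succ_div (a := N + 1) (b := L)
      rw [h]
      split_ifs
      · right; rfl
      · left; rfl
    rcases h1 with h1 | h1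
    · rw [h1, sub_self, norm_zero, add_zero]
      exact ih
    · rw [h1]
      have h2 := (norm_sub_le (h ((N + 1) / L + 1)) (h ((N + 1) / L))).trans (add_le_add (hh _) (hh _))
      push_cast
      linarith

theorem norm_bm_le {g : ℕ → ℂ} {C : ℝ} (hg : ∀ n, ‖g n‖ ≤ C) {Q : ℕ} (hQ : 0 < Q) (n : ℕ) : ‖bm Q g n‖ ≤ C := by
  have hQ0 : (0 : ℝ) < Q := by exact_mod_cast hQ
  unfold bm
  rw [norm_div, Complex.norm_natCast, div_le_iff₀ hQ0]
  calc _ ≤ ∑ _r ∈ range Q, C := (norm_sum_le _ _).trans (sum_le_sum fun r _ => hg _)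
    _ = C * Q := by rw [sum_const, card_range, nsmul_eq_mul]; ring

/-- aligned blocks -/
theorem blocks {f g : ℕ → ℂ} (hf : ∀ n, ‖f n‖ ≤ 1) {C : ℝ} (hg : ∀ n, ‖g n‖ ≤ C) {Q L : ℕ} (hQ : 0 < Q)
    (hL : 0 < L) {N : ℕ} {K : ℝ} (hK : ∀ m ≤ N, ‖∑ n ∈ Icc 1 m, f n‖ ≤ K) :
    ‖∑ n ∈ Icc 1 N, f n * g n‖ ≤ 2 * C * (Q * (#(bad f Q N) + 1) + (Q + 1)) +
      Q * ∑ m ∈ range (N / Q + 1), ‖bm Q g m - bm (Q * L) g (m / L)‖ +
      K * (C + 2 * C * (((N + 1) / (Q * L) : ℕ) : ℝ)) := by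
  classical
  have hC0 : 0 ≤ C := (norm_nonneg _).trans (hg 0)
  have hQ0 : (0 : ℝ) < Q := by exact_mod_cast hQ
  have hQC : (Q : ℂ) ≠ 0 := by exact_mod_cast hQ.ne'
  set M := N / Q + 1 with hM
  have hMN : N < M * Q := by
    rw [hM, Nat.add_mul, one_mul]
    exact Nat.lt_div_mul_add hQ
  have hMN2 : M * Q ≤ N + Q := by
    rw [hM, Nat.add_mul, one_mul]
    have := Nat.div_mul_le_self N Q
    omega
  have hbC : ∀ (R n : ℕ), 0 < R → ‖bm R g n‖ ≤ C := fun R n hR => norm_bm_le hg hR n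
  -- passage to `range (M * Q)`
  have hext : ∀ F : ℕ → ℂ, (∀ n, ‖F n‖ ≤ 2 * C) →
      ‖∑ n ∈ Icc 1 N, F n‖ ≤ ‖∑ n ∈ range (M * Q), F n‖ + 2 * C * (Q + 1) := by
    intro F hF
    have h1 : ∑ n ∈ range (M * Q), F n = ∑ n ∈ Icc 1 N, F n + ∑ n ∈ (range (M * Q)) \ (Icc 1 N), F n := by
      rw [add_comm, sum_sdiff]
      intro n hn
      rw [mem_Icc] at hn
      rw [mem_range]
      omega
    have h2 : #((range (M * Q)) \ (Icc 1 N)) ≤ Q + 1 := by
      rw [card_sdiff_of_subset (by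
        intro n hn
        rw [mem_Icc] at hn
        rw [mem_range]
        omega), card_range, Nat.card_Icc]
      omega
    have h3 : ‖∑ n ∈ (range (M * Q)) \ (Icc 1 N), F n‖ ≤ 2 * C * (Q + 1) := by
      calc _ ≤ ∑ _n ∈ (range (M * Q)) \ (Icc 1 N), 2 * C := (norm_sum_le _ _).trans (sum_le_sum fun n _ => hF n)
        _ = #((range (M * Q)) \ (Icc 1 N)) * (2 * C) := by rw [sum_const, nsmul_eq_mul]
        _ ≤ ((Q + 1 : ℕ) : ℝ) * (2 * C) := by
            apply mul_le_mul_of_nonneg_right _ (by positivity)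
            exact_mod_cast h2
        _ = _ := by push_cast; ring
    have h4 : ∑ n ∈ Icc 1 N, F n = ∑ n ∈ range (M * Q), F n - ∑ n ∈ (range (M * Q)) \ (Icc 1 N), F n := by
      rw [h1]; ring
    rw [h4]
    exact (norm_sub_le _ _).trans (add_le_add le_rfl h3)
  -- part 1
  have hdiff : ∀ n, ‖f n * (g n - bm Q g (n / Q))‖ ≤ 2 * C := by
    intro n
    rw [norm_mul]
    have h1 := (norm_sub_le (g n) (bm Q g (n / Q))).trans (add_le_add (hg n) (hbC Q _ hQ))
    calc _ ≤ 1 * (C + C) := mul_le_mul (hf n) h1 (norm_nonneg _) (by norm_num)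
      _ = 2 * C := by ring
  have hblock : ∀ m, (∀ j ≤ Q, f (Q * m + j) = f (Q * m)) →
      ∑ r ∈ range Q, f (Q * m + r) * (g (Q * m + r) - bm Q g ((Q * m + r) / Q)) = 0 := by
    intro m hm
    have h1 : ∀ r ∈ range Q, f (Q * m + r) * (g (Q * m + r) - bm Q g ((Q * m + r) / Q)) =
        f (Q * m) * (g (Q * m + r) - bm Q g m) := by
      intro r hr
      rw [mem_range] at hr
      rw [hm r hr.le, Nat.mul_add_div hQ, Nat.div_eq_of_lt hr, add_zero]
    rw [sum_congr rfl h1, ← mul_sum, sum_sub_distrib, sum_const, card_range, nsmul_eq_mul, bm,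
      mul_div_cancel₀ _ hQC, sub_self, mul_zero]
  have p1 : ‖∑ n ∈ range (M * Q), f n * (g n - bm Q g (n / Q))‖ ≤ 2 * C * (Q * (#(bad f Q N) + 1)) := by
    rw [sum_range_mul]
    set Bd : Finset ℕ := (range M).filter (fun m => ¬ ∀ j ≤ Q, f (Q * m + j) = f (Q * m)) with hBd
    have h1 : ∑ m ∈ range M, ∑ r ∈ range Q, f (Q * m + r) * (g (Q * m + r) - bm Q g ((Q * m + r) / Q)) =
        ∑ m ∈ Bd, ∑ r ∈ range Q, f (Q * m + r) * (g (Q * m + r) - bm Q g ((Q * m + r) / Q)) := by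
      rw [hBd, sum_filter]
      apply sum_congr rfl
      intro m _
      split_ifs with h4
      · exact hblock m h4
      · rfl
    have h2 : #Bd ≤ #(bad f Q N) + 1 := by
      have h3 : Bd ⊆ insert 0 ((bad f Q N).image (fun n => n / Q)) := by
        intro m hm
        rw [hBd, mem_filter, mem_range] at hm
        rw [mem_insert, mem_image]
        rcases Nat.eq_zero_or_pos m with h0 | h0
        · left; exact h0
        · right
          refine ⟨Q * m, ?_, Nat.mul_div_cancel_left m hQ⟩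
          unfold bad
          rw [mem_filter, mem_Icc]
          refine ⟨⟨Nat.mul_pos hQ h0, ?_⟩, hm.2⟩
          have h5 : m ≤ N / Q := by omega
          calc Q * m ≤ Q * (N / Q) := Nat.mul_le_mul_left _ h5
            _ ≤ N := Nat.mul_div_le N Q
      refine (card_le_card h3).trans ((card_insert_le _ _).trans ?_)
      have := card_image_le (s := bad f Q N) (f := fun n => n / Q)
      omega
    rw [h1]
    calc _ ≤ ∑ _m ∈ Bd, (Q : ℝ) * (2 * C) := by
          refine (norm_sum_le _ _).trans (sum_le_sum fun m _ => ?_)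
          calc _ ≤ ∑ _r ∈ range Q, 2 * C := (norm_sum_le _ _).trans (sum_le_sum fun r _ => hdiff _)
            _ = _ := by rw [sum_const, card_range, nsmul_eq_mul]
      _ = #Bd * (Q * (2 * C)) := by rw [sum_const, nsmul_eq_mul]
      _ ≤ ((#(bad f Q N) + 1 : ℕ) : ℝ) * (Q * (2 * C)) := by
          apply mul_le_mul_of_nonneg_right _ (by positivity)
          exact_mod_cast h2
      _ = _ := by push_cast; ring
  -- part 2
  have p2 : ‖∑ n ∈ Icc 1 N, f n * (bm Q g (n / Q) - bm (Q * L) g (n / (Q * L)))‖ ≤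
      Q * ∑ m ∈ range M, ‖bm Q g m - bm (Q * L) g (m / L)‖ := by
    calc _ ≤ ∑ n ∈ Icc 1 N, ‖bm Q g (n / Q) - bm (Q * L) g (n / (Q * L))‖ := by
          refine (norm_sum_le _ _).trans (sum_le_sum fun n _ => ?_)
          rw [norm_mul]
          exact mul_le_of_le_one_left (norm_nonneg _) (hf n)
      _ ≤ ∑ n ∈ range (M * Q), ‖bm Q g (n / Q) - bm (Q * L) g (n / (Q * L))‖ := by
          apply sum_le_sum_of_subset_of_nonneg _ (fun _ _ _ => norm_nonneg _)
          intro n hn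
          rw [mem_Icc] at hn
          rw [mem_range]
          omega
      _ = ∑ m ∈ range M, ∑ _r ∈ range Q, ‖bm Q g m - bm (Q * L) g (m / L)‖ := by
          rw [sum_range_mul]
          apply sum_congr rfl
          intro m _
          apply sum_congr rfl
          intro r hr
          rw [mem_range] at hr
          rw [← Nat.div_div_eq_div_mul, Nat.mul_add_div hQ, Nat.div_eq_of_lt hr, add_zero]
      _ = _ := by
          rw [mul_sum]
          apply sum_congr rfl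
          intro m _
          rw [sum_const, card_range, nsmul_eq_mul]
  -- part 3
  have p3 : ‖∑ n ∈ Icc 1 N, f n * bm (Q * L) g (n / (Q * L))‖ ≤ K * (C + 2 * C * (((N + 1) / (Q * L) : ℕ) : ℝ)) :=
    abel_le hK (fun n => hbC _ _ (Nat.mul_pos hQ hL))
      (jumps (h := fun n => bm (Q * L) g n) (fun n => hbC _ _ (Nat.mul_pos hQ hL)) (Q * L) N)
  have p1' := (hext (fun n => f n * (g n - bm Q g (n / Q))) hdiff).trans (add_le_add p1 le_rfl)
  have e0 : ∑ n ∈ Icc 1 N, f n * g n = ∑ n ∈ Icc 1 N, f n * (g n - bm Q g (n / Q)) +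
      ∑ n ∈ Icc 1 N, f n * (bm Q g (n / Q) - bm (Q * L) g (n / (Q * L))) +
      ∑ n ∈ Icc 1 N, f n * bm (Q * L) g (n / (Q * L)) := by
    rw [← sum_add_distrib, ← sum_add_distrib]
    exact sum_congr rfl fun n _ => by ring
  rw [e0]
  refine (norm_add_le _ _).trans ?_
  refine (add_le_add (norm_add_le _ _) le_rfl).trans ?_
  linarith

/-- regular sequences: the choice of the parameters -/
theorem regular_bound {q : ℕ} (hq : 2 ≤ q) {g : ℕ → ℂ} {C : ℝ} (hC : ∀ n, ‖g n‖ ≤ C)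
    (hfd : FiniteDimensional ℂ (Submodule.span ℂ (ker q g))) {ε : ℝ} (hε : 0 < ε) :
    ∃ (Q : ℕ) (η : ℝ) (N₀ : ℕ), 0 < η ∧ ∀ f : ℕ → ℂ, (∀ n, ‖f n‖ ≤ 1) → ∀ N ≥ N₀,
      (#(bad f Q N) : ℝ) ≤ η * N → (∀ m ≤ N, ‖∑ n ∈ Icc 1 m, f n‖ ≤ η * N) →
      ‖∑ n ∈ Icc 1 N, f n * g n‖ ≤ ε * N := by
  have hC0 : 0 ≤ C := (norm_nonneg _).trans (hC 0)
  obtain ⟨k, J, hkJ⟩ := regular_leading hq hC hfd (ε := ε / 4) (by positivity)
  set Q := q ^ k with hQ
  have hQ0 : 0 < Q := by positivity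
  have hQr : (0 : ℝ) < Q := by exact_mod_cast hQ0
  have hq1 : 1 < q := by omega
  set D : ℝ := 2 * C * Q + (C + 2 * C * q ^ (J + 1)) + 1 with hD
  have hD0 : 0 < D := by positivity
  set η : ℝ := ε / (4 * D) with hη
  have hη0 : 0 < η := by positivity
  obtain ⟨N₁, hN₁⟩ := exists_nat_ge ((2 * C * (Q + (Q + 1)) + ε / 4 * Q) / (ε / 4))
  refine ⟨Q, η, max N₁ (Q * q ^ J), hη0, fun f hf N hN hbad hK => ?_⟩
  have hN1 : N₁ ≤ N := (le_max_left _ _).trans hN
  have hN2 : Q * q ^ J ≤ N := (le_max_right _ _).trans hN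
  -- choice of `l`
  set M := N / Q + 1 with hM
  have hMJ : q ^ J ≤ M := by
    have : q ^ J ≤ N / Q := by
      rw [Nat.le_div_iff_mul_le hQ0, mul_comm]
      exact hN2
    omega
  set l := Nat.log q M - J with hl
  have hlog : J ≤ Nat.log q M := Nat.le_log_of_pow_le hq1 hMJ
  have hM0 : M ≠ 0 := by rw [hM]; exact Nat.succ_ne_zero _
  have hl1 : q ^ (J + l) ≤ M := by
    rw [hl, Nat.add_sub_cancel' hlog]
    exact Nat.pow_log_le_self q hM0
  have hl2 : M < q ^ (J + l + 1) := by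
    rw [hl, Nat.add_sub_cancel' hlog]
    exact Nat.lt_pow_succ_log_self hq1 M
  have h1 := hkJ l M hl1 hl2
  have h2 := blocks hf hC hQ0 (L := q ^ l) (by positivity) hK
  rw [show Q * q ^ l = q ^ (k + l) by rw [hQ, pow_add], ← hM] at h2
  have hjump : (((N + 1) / q ^ (k + l) : ℕ) : ℝ) ≤ (q : ℝ) ^ (J + 1) := by
    have h3 : (N + 1) / q ^ (k + l) ≤ q ^ (J + 1) := by
      have h4 : N + 1 ≤ M * Q := by
        rw [hM, Nat.add_mul, one_mul]
        exact Nat.lt_div_mul_add hQ0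
      apply Nat.div_le_of_le_mul
      calc N + 1 ≤ M * Q := h4
        _ ≤ q ^ (J + l + 1) * Q := Nat.mul_le_mul_right _ hl2.le
        _ = q ^ (k + l) * q ^ (J + 1) := by rw [hQ]; ring
    exact_mod_cast h3
  have hQM : (Q : ℝ) * M ≤ N + Q := by
    have h3 : Q * M ≤ N + Q := by
      rw [hM, Nat.mul_add, mul_one]
      have := Nat.mul_div_le N Q
      omega
    exact_mod_cast h3
  have hN0 : (0 : ℝ) ≤ N := Nat.cast_nonneg _
  have t1 : (Q : ℝ) * ∑ m ∈ range M, ‖bm Q g m - bm (q ^ (k + l)) g (m / q ^ l)‖ ≤ ε / 4 * N + ε / 4 * Q := by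
    calc _ ≤ (Q : ℝ) * (ε / 4 * M) := mul_le_mul_of_nonneg_left h1 hQr.le
      _ = ε / 4 * (Q * M) := by ring
      _ ≤ ε / 4 * (N + Q) := mul_le_mul_of_nonneg_left hQM (by positivity)
      _ = _ := by ring
  have hηN : 0 ≤ η * N := by positivity
  have t2 : η * N * (C + 2 * C * (((N + 1) / q ^ (k + l) : ℕ) : ℝ)) ≤ η * N * (C + 2 * C * q ^ (J + 1)) := by
    apply mul_le_mul_of_nonneg_left _ hηN
    have := mul_le_mul_of_nonneg_left hjump (by positivity : 0 ≤ 2 * C)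
    linarith
  have t3 : 2 * C * (Q * (#(bad f Q N) + 1) + (Q + 1)) ≤ 2 * C * Q * (η * N) + 2 * C * (Q + (Q + 1)) := by
    have h4 : 2 * C * Q * (#(bad f Q N) : ℝ) ≤ 2 * C * Q * (η * N) := mul_le_mul_of_nonneg_left hbad (by positivity)
    linarith
  have t4 : 2 * C * (Q + (Q + 1)) + ε / 4 * Q ≤ ε / 4 * N := by
    rw [div_le_iff₀ (by positivity)] at hN₁
    have h5 : (N₁ : ℝ) ≤ N := by exact_mod_cast hN1
    have h6 := mul_le_mul_of_nonneg_right h5 (by positivity : 0 ≤ ε / 4)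
    linarith
  have t5 : η * N * D = ε / 4 * N := by
    rw [hη]
    field_simp
  have t6 : 2 * C * Q * (η * N) + η * N * (C + 2 * C * q ^ (J + 1)) ≤ η * N * D := by
    rw [hD]
    nlinarith
  have t7 : 0 ≤ ε * N := by positivity
  linarith

end Pool.Agent.Y834.AU
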